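import Pool.Agent.H43.TC.Targets2

/-! BOX. The region lies in the unit square. -/

set_option autoImplicit false

namespace Pool.Agent.H42.TE

open Pool.Agent.H43.TC Filter Topology

theorem walks_le {G : Type} [AddCommGroup G] {k : ℕ} (s : Fin k → G) (c : G → Bool) (b : Bool)
    (t : ℕ) (x : G) : walks s c b t x ≤ if c x = b then (2 * k) ^ t else 0 := by
  induction t generalizing x with
  | zero => simp [walks]
  | succ t ih =>
    unfold walks
    by_cases h : c x = b
    · simp only [h, if_true]
      have h1 : ∀ y, walks s c b t y ≤ (2 * k) ^ t := fun y => by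
        refine (ih y).trans ?_
        split_ifs
        · exact le_rfl
        · exact Nat.zero_le _
      calc ∑ i : Fin k, (walks s c b t (x + s i) + walks s c b t (x - s i))
          ≤ ∑ _i : Fin k, ((2 * k) ^ t + (2 * k) ^ t) :=
            Finset.sum_le_sum fun i _ => Nat.add_le_add (h1 _) (h1 _)
        _ = (2 * k) ^ (t + 1) := by
            rw [Finset.sum_const, Finset.card_univ, Fintype.card_fin, smul_eq_mul, pow_succ]
            ring
    · simp only [h, if_false, le_refl]

theorem stay_mem {k n : ℕ} [NeZero n] (c : Tor k n → Bool) (b : Bool) (t : ℕ) :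
    0 ≤ stay c b t ∧ stay c b t ≤ 1 := by
  unfold stay
  refine ⟨by positivity, ?_⟩
  refine div_le_one_of_le₀ ?_ (by positivity)
  have h1 : total c b t ≤ size c b * (2 * k) ^ t := by
    unfold total size
    calc ∑ x, walks e c b t x ≤ ∑ x, (if c x = b then (2 * k) ^ t else 0) :=
          Finset.sum_le_sum fun x _ => walks_le _ _ _ _ _
      _ = _ := by
          rw [← Finset.sum_filter, Finset.sum_const, smul_eq_mul]
  exact_mod_cast h1

/-- BOX -/
theorem box : T_BOX := by
  rintro k t x y - ⟨n, c, -, -, hlim⟩
  have h1 := (continuous_fst.tendsto _).comp hlim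
  have h2 := (continuous_snd.tendsto _).comp hlim
  refine ⟨ge_of_tendsto' h1 fun j => ?_, le_of_tendsto' h1 fun j => ?_,
    ge_of_tendsto' h2 fun j => ?_, le_of_tendsto' h2 fun j => ?_⟩
  · exact (stay_mem (c j) true t).1
  · exact (stay_mem (c j) true t).2
  · exact (stay_mem (c j) false t).1
  · exact (stay_mem (c j) false t).2

end Pool.Agent.H42.TE
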